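import Pool.Agent.Helper1.OP.Main

/-!
# Every oriented path, asymptotically optimal semidegree, hosts with degrees at most `exp (c k)`
-/

set_option autoImplicit false

namespace Pool.Agent.Helper1.Old.BoundedDegrees

/-- For every `ε > 0` there are `c > 0` and `k₀` such that for every `k ≥ k₀` every finite nonempty
oriented graph all of whose out-degrees and in-degrees lie between `(1/2 + ε) k` and `exp (c k)`
contains every oriented path with `k` arcs. -/
theorem result :
    ∀ ε : ℝ, 0 < ε → ∃ c : ℝ, 0 < c ∧ ∃ k₀ : ℕ, ∀ k : ℕ, k₀ ≤ k →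
      ∀ (V : Type) [Finite V] [Nonempty V] (G : Digraph V),
      (∀ u v, G.Adj u v → ¬ G.Adj v u) →
      (∀ v, (1 / 2 + ε) * (k : ℝ) ≤ ({w | G.Adj v w}.ncard : ℝ) ∧
        (1 / 2 + ε) * (k : ℝ) ≤ ({w | G.Adj w v}.ncard : ℝ)) →
      (∀ v, ({w | G.Adj v w}.ncard : ℝ) ≤ Real.exp (c * k) ∧
        ({w | G.Adj w v}.ncard : ℝ) ≤ Real.exp (c * k)) →
      ∀ σ : Fin k → Bool, ∃ f : Fin (k + 1) → V, Function.Injective f ∧
        ∀ i : Fin k, (σ i = true → G.Adj (f i.castSucc) (f i.succ)) ∧
          (σ i = false → G.Adj (f i.succ) (f i.castSucc)) := by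
  classical
  intro ε hε
  obtain ⟨c, hc, k₀, hmain⟩ := Pool.Agent.Helper1.OP.main ε hε
  refine ⟨c, hc, k₀, ?_⟩
  intro k hk V _ _ G hG hlow hup σ
  have hfin : Nonempty (Fintype V) := ⟨Fintype.ofFinite V⟩
  obtain ⟨hF⟩ := hfin
  set R : Bool → V → V → Prop := fun b v w => if b = true then G.Adj v w else G.Adj w v with hR
  have hRt : ∀ v w, R true v w ↔ G.Adj v w := fun v w => by simp [hR]
  have hRf : ∀ v w, R false v w ↔ G.Adj w v := fun v w => by simp [hR]
  set N : Bool → V → Finset V := fun b v => Finset.univ.filter fun w => R b v w with hN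
  have hmem : ∀ b v w, w ∈ N b v ↔ R b v w := fun b v w => by simp [hN]
  have hR1 : ∀ b x y, y ∈ N b x → x ∈ N (!b) y := by
    intro b x y h
    rw [hmem] at h ⊢
    cases b
    · exact (hRt _ _).2 ((hRf _ _).1 h)
    · exact (hRf _ _).2 ((hRt _ _).1 h)
  have hR2 : ∀ b x y, y ∈ N b x → x ∉ N b y := by
    intro b x y h h'
    rw [hmem] at h h'
    cases b
    · exact hG _ _ ((hRf _ _).1 h) ((hRf _ _).1 h')
    · exact hG _ _ ((hRt _ _).1 h) ((hRt _ _).1 h')
  have hcardt : ∀ v, (N true v).card = {w | G.Adj v w}.ncard := by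
    intro v
    rw [← Set.ncard_coe_finset]
    congr 1
    ext w
    rw [Finset.mem_coe, hmem, hRt]
    rfl
  have hcardf : ∀ v, (N false v).card = {w | G.Adj w v}.ncard := by
    intro v
    rw [← Set.ncard_coe_finset]
    congr 1
    ext w
    rw [Finset.mem_coe, hmem, hRf]
    rfl
  set P : ℕ → Bool := fun t => if h : t < k then σ ⟨t, h⟩ else true with hP
  have hPσ : ∀ i : Fin k, P i = σ i := fun i => by simp [hP]
  obtain ⟨X, hX1, hX2⟩ := hmain k hk V N hR2 hR1
    (by
      intro b v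
      cases b
      · rw [hcardf]
        exact (hlow v).2
      · rw [hcardt]
        exact (hlow v).1)
    (by
      intro b v
      cases b
      · rw [hcardf]
        exact (hup v).2
      · rw [hcardt]
        exact (hup v).1) P
  refine ⟨fun i => X i, ?_, ?_⟩
  · intro a b hab
    exact Fin.ext (hX2 a (Nat.lt_succ_iff.1 a.2) b (Nat.lt_succ_iff.1 b.2) hab)
  · intro i
    have h1 := hX1 i i.2
    rw [hPσ, hmem] at h1
    refine ⟨fun hs => ?_, fun hs => ?_⟩
    · rw [hs] at h1
      exact (hRt _ _).1 h1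
    · rw [hs] at h1
      exact (hRf _ _).1 h1

end Pool.Agent.Helper1.Old.BoundedDegrees
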