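import Pool.Agent.Helper34.ST.All

/-!
# Oriented paths in dense oriented graphs (asymptotic form of Stein's conjecture, all orientations)
-/

set_option autoImplicit false

namespace Pool.Agent.Results.MP_f8e2d3_co.DenseAsymptotic

/-- For every `ε > 0` and all sufficiently large `n`: an oriented graph on `n` vertices, all of whose
out-degrees and in-degrees are at least `k / 2 + ε n`, contains every oriented path with `k` arcs. -/
theorem result (ε : ℝ) (hε : 0 < ε) :
    ∃ n₀ : ℕ, ∀ (V : Type) [Fintype V] (D : Digraph V) (k : ℕ),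
      n₀ ≤ Fintype.card V →
      (∀ u v, D.Adj u v → ¬ D.Adj v u) →
      (∀ v, (k : ℝ) / 2 + ε * Fintype.card V ≤ {w | D.Adj v w}.ncard ∧
        (k : ℝ) / 2 + ε * Fintype.card V ≤ {w | D.Adj w v}.ncard) →
      ∀ forward : Fin k → Prop, ∃ x : Fin (k + 1) → V, Function.Injective x ∧
        ∀ i : Fin k, (forward i → D.Adj (x i.castSucc) (x i.succ)) ∧
          (¬ forward i → D.Adj (x i.succ) (x i.castSucc)) := by
  classical
  obtain ⟨n0, hn0⟩ := Pool.Agent.Helper34.ST.main_all ε hε
  refine ⟨n0, fun V _ D k hV hD hdeg f => ?_⟩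
  obtain ⟨x, hx1, hx2⟩ := hn0 V D.Adj hD hV k (fun v => (hdeg v).1) (fun v => (hdeg v).2)
    (fun t => if h : t < k then decide (f ⟨t, h⟩) else true)
  refine ⟨fun i => x i, ?_, ?_⟩
  · intro i j hij
    exact Fin.ext (hx1 i j (by omega) (by omega) hij)
  · intro i
    have h1 := hx2 i (Nat.zero_le _) i.2
    simp only [i.2, dif_pos, Fin.eta, decide_eq_true_eq] at h1
    refine ⟨fun hf => ?_, fun hf => ?_⟩
    · rw [if_pos hf] at h1
      simpa using h1
    · rw [if_neg hf] at h1
      simpa using h1

end Pool.Agent.Results.MP_f8e2d3_co.DenseAsymptotic
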